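import Mathlib

/-!
# Concentrating windows
-/

open MeasureTheory Filter Topology
open scoped ENNReal ContDiff

noncomputable section

set_option linter.unusedSectionVars false

namespace Pool.Agent.Helper2.LL

variable {V : Type*} [NormedAddCommGroup V] [InnerProductSpace ℝ V] [FiniteDimensional ℝ V]
  [MeasurableSpace V] [BorelSpace V]

/-- A normalised window: bounded below on a small ball. -/
lemma exists_window (r δ : ℝ) (hr : 0 < r) (hδ : 0 < δ) :
    ∃ g : V → ℝ, ContDiff ℝ ∞ g ∧ HasCompactSupport g ∧ ∫ x, g x ^ 2 = 1 ∧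
      ∀ x ∈ Metric.closedBall (0 : V) r,
        ((1 + δ) ^ Module.finrank ℝ V * volume.real (Metric.closedBall (0 : V) r))⁻¹ ≤ g x ^ 2 := by
  let φ : ContDiffBump (0 : V) := ⟨r, (1 + δ) * r, hr, by nlinarith⟩
  have hφi : ∫ x, φ x ^ 2 ≤ (1 + δ) ^ Module.finrank ℝ V *
      volume.real (Metric.closedBall (0 : V) r) := by
    have h1 : ∫ x, φ x ^ 2 ≤ ∫ x, (Metric.closedBall (0 : V) ((1 + δ) * r)).indicator
        (fun _ => (1 : ℝ)) x := by
      apply integral_mono
      · exact (φ.continuous.memLp_of_hasCompactSupport φ.hasCompactSupport).integrable_sq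
      · exact (integrable_indicator_iff Metric.isClosed_closedBall.measurableSet).2
          (integrableOn_const (measure_closedBall_lt_top.ne))
      · intro x
        simp only
        by_cases hx : x ∈ Metric.closedBall (0 : V) ((1 + δ) * r)
        · rw [Set.indicator_of_mem hx]
          have h0 := φ.nonneg (x := x)
          have h1 := φ.le_one (x := x)
          nlinarith
        · rw [Set.indicator_of_notMem hx]
          have : φ x = 0 := by
            apply φ.zero_of_le_dist
            rw [Metric.mem_closedBall, not_le] at hx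
            exact hx.le
          rw [this]; simp
    refine h1.trans (le_of_eq ?_)
    rw [integral_indicator_const _ Metric.isClosed_closedBall.measurableSet, smul_eq_mul, mul_one]
    simp only [Measure.real]
    rw [Measure.addHaar_closedBall_mul _ _ (by positivity) hr.le, ENNReal.toReal_mul,
      ENNReal.toReal_ofReal (by positivity)]
  have hφpos : 0 < ∫ x, φ x ^ 2 := by
    rw [integral_pos_iff_support_of_nonneg (fun x => sq_nonneg _)
      ((φ.continuous.memLp_of_hasCompactSupport φ.hasCompactSupport).integrable_sq)]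
    refine lt_of_lt_of_le (Metric.measure_ball_pos volume (0 : V) hr) (measure_mono ?_)
    intro x hx
    rw [Function.mem_support, φ.one_of_mem_closedBall (Metric.ball_subset_closedBall hx)]
    norm_num
  set I := ∫ x, φ x ^ 2 with hI
  refine ⟨fun x => φ x / Real.sqrt I, ?_, ?_, ?_, ?_⟩
  · exact φ.contDiff.div_const _
  · exact φ.hasCompactSupport.comp_left (g := fun t => t / Real.sqrt I) (by simp)
  · simp_rw [div_pow, Real.sq_sqrt hφpos.le]
    rw [integral_div, ← hI, div_self hφpos.ne']
  · intro x hx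
    have h1 : φ x = 1 := φ.one_of_mem_closedBall hx
    simp only
    rw [div_pow, Real.sq_sqrt hφpos.le, h1, one_pow, one_div]
    exact inv_anti₀ hφpos hφi

theorem window_limit_aux (f : V → ℝ) (hf : Integrable f)
    (hf0 : ∀ x, 0 ≤ f x) (L : ℝ≥0∞) (p : ℝ) (hp : 0 ≤ p)
    (hL : L < ∫⁻ x, ENNReal.ofReal (f x) ^ p) :
    ∃ g : V → ℝ, ContDiff ℝ ∞ g ∧ HasCompactSupport g ∧ ∫ x, g x ^ 2 = 1 ∧
      L < ∫⁻ y, (∫⁻ x, ENNReal.ofReal (g (x - y) ^ 2 * f x)) ^ p := by
  have hr : ∀ j : ℕ, (0 : ℝ) < 1 / ((j : ℝ) + 1) := fun j => by positivity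
  choose g hg hgc hg1 hgl using fun j : ℕ => exists_window (V := V) _ _ (hr j) (hr j)
  by_contra hcon
  push Not at hcon
  have hcon' : ∀ j, ∫⁻ y, (∫⁻ x, ENNReal.ofReal (g j (x - y) ^ 2 * f x)) ^ p ≤ L :=
    fun j => hcon (g j) (hg j) (hgc j) (hg1 j)
  -- measurability
  obtain ⟨f', hf'm, hff'⟩ : ∃ f' : V → ℝ, Measurable f' ∧ f =ᵐ[volume] f' :=
    ⟨hf.1.mk _, hf.1.stronglyMeasurable_mk.measurable, hf.1.ae_eq_mk⟩
  have hmeas : ∀ j, Measurable (fun y => (∫⁻ x, ENNReal.ofReal (g j (x - y) ^ 2 * f x)) ^ p) := by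
    intro j
    have h1 : (fun y => (∫⁻ x, ENNReal.ofReal (g j (x - y) ^ 2 * f x)) ^ p) =
        fun y => (∫⁻ x, ENNReal.ofReal (g j (x - y) ^ 2 * f' x)) ^ p := by
      funext y
      congr 1
      refine lintegral_congr_ae ?_
      filter_upwards [hff'] with x hx
      rw [hx]
    rw [h1]
    apply Measurable.pow_const
    apply Measurable.lintegral_prod_right' (f := fun q : V × V =>
      ENNReal.ofReal (g j (q.2 - q.1) ^ 2 * f' q.2))
    apply ENNReal.measurable_ofReal.comp
    apply Measurable.mul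
    · exact ((hg j).continuous.measurable.comp (measurable_snd.sub measurable_fst)).pow_const 2
    · exact hf'm.comp measurable_snd
  -- pointwise lower bound
  have hlow : ∀ (j : ℕ) (y : V), ENNReal.ofReal (((1 + 1 / ((j : ℝ) + 1)) ^ Module.finrank ℝ V)⁻¹ *
      ⨍ x in Metric.closedBall y (1 / ((j : ℝ) + 1)), f x) ≤
      ∫⁻ x, ENNReal.ofReal (g j (x - y) ^ 2 * f x) := by
    intro j y
    set r : ℝ := 1 / ((j : ℝ) + 1) with hrdef
    have hvol : volume.real (Metric.closedBall y r) = volume.real (Metric.closedBall (0 : V) r) := by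
      simp only [Measure.real]
      rw [Measure.addHaar_closedBall_center]
    have hvpos : 0 < volume.real (Metric.closedBall (0 : V) r) := by
      have := Metric.measure_closedBall_pos volume (0 : V) (hr j)
      exact ENNReal.toReal_pos this.ne' measure_closedBall_lt_top.ne
    have e1 : ((1 + r) ^ Module.finrank ℝ V)⁻¹ * ⨍ x in Metric.closedBall y r, f x =
        ∫ x in Metric.closedBall y r, ((1 + r) ^ Module.finrank ℝ V *
          volume.real (Metric.closedBall (0 : V) r))⁻¹ * f x := by
      rw [setAverage_eq, integral_const_mul, hvol, smul_eq_mul, mul_inv]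
      ring
    rw [e1, ofReal_integral_eq_lintegral_ofReal]
    · refine le_trans ?_ (setLIntegral_le_lintegral (Metric.closedBall y r) _)
      apply setLIntegral_mono' Metric.isClosed_closedBall.measurableSet
      intro x hx
      apply ENNReal.ofReal_le_ofReal
      apply mul_le_mul_of_nonneg_right _ (hf0 x)
      apply hgl j
      rw [Metric.mem_closedBall, dist_eq_norm] at hx
      rw [Metric.mem_closedBall, dist_eq_norm, sub_zero]
      exact hx
    · exact (hf.integrableOn (s := Metric.closedBall y r)).const_mul _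
    · refine Eventually.of_forall fun x => ?_
      have := hf0 x
      positivity
  -- a.e. convergence
  have hr0 : Tendsto (fun j : ℕ => 1 / ((j : ℝ) + 1)) atTop (𝓝 0) :=
    tendsto_one_div_add_atTop_nhds_zero_nat
  have hconv := IsUnifLocDoublingMeasure.ae_tendsto_average (μ := (volume : Measure V))
    hf.locallyIntegrable 1
  have hfatou : ∫⁻ y, ENNReal.ofReal (f y) ^ p ≤
      ∫⁻ y, liminf (fun j : ℕ => (∫⁻ x, ENNReal.ofReal (g j (x - y) ^ 2 * f x)) ^ p) atTop := by
    apply lintegral_mono_ae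
    filter_upwards [hconv] with y hy
    have hy1 := hy (l := atTop) (fun _ : ℕ => y) (fun j : ℕ => 1 / ((j : ℝ) + 1))
      (tendsto_nhdsWithin_iff.2 ⟨hr0, Eventually.of_forall fun j => hr j⟩)
      (Eventually.of_forall fun j => by
        rw [Metric.mem_closedBall, dist_self, one_mul]
        exact (hr j).le)
    have hc : Tendsto (fun j : ℕ => ((1 + 1 / ((j : ℝ) + 1)) ^ Module.finrank ℝ V)⁻¹) atTop
        (𝓝 1) := by
      have h1 : Tendsto (fun j : ℕ => ((1 + 1 / ((j : ℝ) + 1)) ^ Module.finrank ℝ V)⁻¹) atTop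
          (𝓝 (((1 + 0) ^ Module.finrank ℝ V)⁻¹)) :=
        ((tendsto_const_nhds.add hr0).pow _).inv₀ (by simp)
      simpa using h1
    have h2 : Tendsto (fun j : ℕ => (ENNReal.ofReal (((1 + 1 / ((j : ℝ) + 1)) ^
        Module.finrank ℝ V)⁻¹ * ⨍ x in Metric.closedBall y (1 / ((j : ℝ) + 1)), f x)) ^ p) atTop
        (𝓝 (ENNReal.ofReal (f y) ^ p)) := by
      have h3 := hc.mul hy1
      rw [one_mul] at h3
      exact ((ENNReal.continuous_rpow_const (y := p)).tendsto _).comp
        ((ENNReal.continuous_ofReal.tendsto _).comp h3)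
    rw [← h2.liminf_eq]
    exact liminf_le_liminf (Eventually.of_forall fun j => ENNReal.rpow_le_rpow (hlow j y) hp)
  have h3 : ∫⁻ y, liminf (fun j : ℕ => (∫⁻ x, ENNReal.ofReal (g j (x - y) ^ 2 * f x)) ^ p) atTop ≤
      liminf (fun j : ℕ => ∫⁻ y, (∫⁻ x, ENNReal.ofReal (g j (x - y) ^ 2 * f x)) ^ p) atTop :=
    lintegral_liminf_le hmeas
  have h4 : liminf (fun j : ℕ => ∫⁻ y, (∫⁻ x, ENNReal.ofReal (g j (x - y) ^ 2 * f x)) ^ p) atTop ≤
      L := by
    refine (liminf_le_liminf (Eventually.of_forall hcon')).trans ?_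
    simp
  exact absurd hL (not_lt.2 (hfatou.trans (h3.trans h4)))

end Pool.Agent.Helper2.LL
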