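import Mathlib

/-!
# Plancherel for integrable square-integrable functions
-/

open MeasureTheory Filter Topology FourierTransform SchwartzMap
open scoped ENNReal ContDiff

noncomputable section

namespace Pool.Agent.Helper2.LL

variable {V : Type*} [NormedAddCommGroup V] [InnerProductSpace ℝ V] [FiniteDimensional ℝ V]
  [MeasurableSpace V] [BorelSpace V]

/-- The `L²` Fourier transform of an integrable function is given by the Fourier integral. -/
theorem fourier_toLp_ae (h : V → ℂ) (h1 : Integrable h) (h2 : MemLp h 2) :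
    ((𝓕 (h2.toLp h) : Lp ℂ 2 (volume : Measure V)) : V → ℂ) =ᵐ[volume] 𝓕 h := by
  have hcont : Continuous (𝓕 h) :=
    VectorFourier.fourierIntegral_continuous (L := innerₗ V) Real.continuous_fourierChar
      (by exact continuous_inner) h1
  have hloc : LocallyIntegrable ((𝓕 (h2.toLp h) : Lp ℂ 2 (volume : Measure V)) : V → ℂ) volume :=
    (Lp.memLp _).locallyIntegrable (by norm_num)
  refine ae_eq_of_integral_contDiff_smul_eq hloc hcont.locallyIntegrable ?_
  intro g hg hgc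
  have hg₁ : HasCompactSupport (Complex.ofRealCLM ∘ g) := hgc.comp_left rfl
  have hg₂ : ContDiff ℝ ∞ (Complex.ofRealCLM ∘ g) := by fun_prop
  set G : 𝓢(V, ℂ) := hg₁.toSchwartzMap hg₂ with hG
  have hGx : ∀ x, G x = (g x : ℂ) := fun x => rfl
  have e1 : ∫ x, g x • ((𝓕 (h2.toLp h) : Lp ℂ 2 (volume : Measure V)) : V → ℂ) x
      = ((𝓕 (h2.toLp h) : Lp ℂ 2 (volume : Measure V)) : 𝓢'(V, ℂ)) G := by
    rw [Lp.toTemperedDistribution_apply]
    refine integral_congr_ae (Eventually.of_forall fun x => ?_)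
    simp [hGx]
  have e2 : ((𝓕 (h2.toLp h) : Lp ℂ 2 (volume : Measure V)) : 𝓢'(V, ℂ)) G
      = ∫ x, (𝓕 G) x * h x := by
    rw [← Lp.fourier_toTemperedDistribution_eq, TemperedDistribution.fourier_apply,
      Lp.toTemperedDistribution_apply]
    refine integral_congr_ae ?_
    filter_upwards [h2.coeFn_toLp] with x hx
    rw [hx, smul_eq_mul]
  have e3 : ∫ x, (𝓕 G) x * h x = ∫ x, G x * (𝓕 h) x := by
    have := VectorFourier.integral_bilin_fourierIntegral_eq_flip (ContinuousLinearMap.mul ℂ ℂ)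
      (L := innerₗ V) (μ := volume) (ν := volume) Real.continuous_fourierChar
      (by exact continuous_inner) G.integrable h1
    simpa using! this
  rw [e1, e2, e3]
  refine integral_congr_ae (Eventually.of_forall fun x => ?_)
  simp [hGx]

/-- Plancherel for `h ∈ L¹ ∩ L²`. -/
theorem plancherel (h : V → ℂ) (h1 : Integrable h) (h2 : MemLp h 2) :
    ∫⁻ k, ‖𝓕 h k‖ₑ ^ 2 = ∫⁻ x, ‖h x‖ₑ ^ 2 := by
  have key := fourier_toLp_ae h h1 h2
  have e1 : ∫⁻ k, ‖𝓕 h k‖ₑ ^ 2 = ∫⁻ k, ‖(𝓕 (h2.toLp h) : Lp ℂ 2 (volume : Measure V)) k‖ₑ ^ 2 := by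
    refine lintegral_congr_ae ?_
    filter_upwards [key] with x hx
    rw [hx]
  have e2 : ∫⁻ x, ‖h x‖ₑ ^ 2 = ∫⁻ k, ‖(h2.toLp h : Lp ℂ 2 (volume : Measure V)) k‖ₑ ^ 2 := by
    refine lintegral_congr_ae ?_
    filter_upwards [h2.coeFn_toLp] with x hx
    rw [hx]
  have e3 : ∀ F : Lp ℂ 2 (volume : Measure V), ∫⁻ k, ‖F k‖ₑ ^ 2 = (ENNReal.ofReal ‖F‖) ^ 2 := by
    intro F
    rw [Lp.norm_def, ENNReal.ofReal_toReal (Lp.eLpNorm_ne_top F),
      eLpNorm_eq_lintegral_rpow_enorm_toReal (by norm_num) (by norm_num)]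
    simp only [ENNReal.toReal_ofNat, ENNReal.rpow_ofNat, one_div]
    rw [← ENNReal.rpow_natCast, ← ENNReal.rpow_mul]
    norm_num
  rw [e1, e2, e3, e3, Lp.norm_fourier_eq]

end Pool.Agent.Helper2.LL
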