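import Pool.Agent.Helper2.LL.Plancherel

/-!
# Coherent-state lower bound: core computation on `V × Y`
-/

open MeasureTheory Filter Topology FourierTransform
open scoped ENNReal ContDiff RealInnerProductSpace

noncomputable section

set_option linter.unusedSectionVars false

namespace Pool.Agent.Helper2.LL

variable {V : Type*} [NormedAddCommGroup V] [InnerProductSpace ℝ V] [FiniteDimensional ℝ V]
  [MeasurableSpace V] [BorelSpace V]
variable {Y : Type*} [MeasureSpace Y] [SFinite (volume : Measure Y)]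

lemma enorm_sq_real_mul (r : ℝ) (z : ℂ) : ‖(r : ℂ) * z‖ₑ ^ 2 = ENNReal.ofReal (r ^ 2) * ‖z‖ₑ ^ 2 := by
  rw [enorm_mul, mul_pow]
  congr 1
  rw [← ofReal_norm, ← ENNReal.ofReal_pow (norm_nonneg _), Complex.norm_real,
    Real.norm_eq_abs, sq_abs]

lemma memLp_two_iff_lintegral {α E : Type*} [MeasurableSpace α] [NormedAddCommGroup E]
    {μ : Measure α} {f : α → E}
    (hf : AEStronglyMeasurable f μ) : MemLp f 2 μ ↔ ∫⁻ x, ‖f x‖ₑ ^ 2 ∂μ < ⊤ := by
  unfold MemLp
  rw [eLpNorm_lt_top_iff_lintegral_rpow_enorm_lt_top (by norm_num) (by norm_num)]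
  simp [hf]

lemma ofReal_integral_norm_sq {α : Type*} [MeasurableSpace α] {μ : Measure α} {f : α → ℂ}
    (hf : MemLp f 2 μ) : ENNReal.ofReal (∫ x, ‖f x‖ ^ 2 ∂μ) = ∫⁻ x, ‖f x‖ₑ ^ 2 ∂μ := by
  rw [ofReal_integral_eq_lintegral_ofReal]
  · refine lintegral_congr fun x => ?_
    rw [ENNReal.ofReal_pow (norm_nonneg _), ofReal_norm]
  · exact hf.norm.integrable_sq
  · exact Eventually.of_forall fun x => by positivity

/-- A continuous compactly supported function times an `L²` function. -/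
lemma cc_mul_memLp (c : V → ℂ) (hc : Continuous c) (hcc : HasCompactSupport c) (h : V → ℂ)
    (h2 : MemLp h 2) : Integrable (fun x => c x * h x) ∧ MemLp (fun x => c x * h x) 2 := by
  have hc2 : MemLp c 2 := hc.memLp_of_hasCompactSupport hcc
  have hct : MemLp c ⊤ := hc.memLp_of_hasCompactSupport hcc
  constructor
  · exact memLp_one_iff_integrable.1 (h2.mul' hc2)
  · exact h2.mul' hct

/-- The character `x ↦ exp (-2 π i ⟪x, k⟫)`. -/
def ch (k x : V) : ℂ := Complex.exp ((↑(-2 * Real.pi * ⟪x, k⟫) * Complex.I))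

lemma ch_norm (k x : V) : ‖ch k x‖ = 1 := by
  unfold ch
  exact Complex.norm_exp_ofReal_mul_I _

lemma ch_contDiff (k : V) : ContDiff ℝ ∞ (ch k) := by
  unfold ch
  apply ContDiff.cexp
  apply ContDiff.mul _ contDiff_const
  have : ContDiff ℝ ∞ (fun x : V => (-2 * Real.pi * ⟪x, k⟫ : ℝ)) :=
    contDiff_const.mul (contDiff_id.inner ℝ contDiff_const)
  exact Complex.ofRealCLM.contDiff.comp this

lemma ch_hasFDerivAt (k x v : V) :
    fderiv ℝ (ch k) x v = -(2 * Real.pi * Complex.I * (⟪v, k⟫ : ℝ)) * ch k x := by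
  have h1 : HasFDerivAt (fun x : V => (⟪x, k⟫ : ℝ)) ((innerSL ℝ).flip k) x :=
    ((innerSL ℝ).flip k).hasFDerivAt
  have h2 : HasFDerivAt (fun x : V => (-2 * Real.pi * ⟪x, k⟫ : ℝ))
      ((-2 * Real.pi) • ((innerSL ℝ).flip k)) x := h1.const_mul _
  have h3 : HasFDerivAt (fun x : V => ((-2 * Real.pi * ⟪x, k⟫ : ℝ) : ℂ))
      (Complex.ofRealCLM.comp ((-2 * Real.pi) • ((innerSL ℝ).flip k))) x :=
    Complex.ofRealCLM.hasFDerivAt.comp x h2
  have h4 := (h3.mul_const Complex.I).cexp
  have h5 : fderiv ℝ (ch k) x = _ := h4.fderiv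
  rw [h5]
  have h6 : (innerSL ℝ) k v = (⟪v, k⟫ : ℝ) := by
    rw [innerSL_apply_apply, real_inner_comm]
  simp [ch, h6]
  ring

/-- The Fourier transform. -/
@[irreducible]
def FT (f : V → ℂ) (k : V) : ℂ := ∫ x, ch k x * f x

lemma fourier_eq_ch (f : V → ℂ) (k : V) : FT f k = ∫ x, ch k x * f x := by
  rw [FT]

lemma fourier_eq_FT (f : V → ℂ) : 𝓕 f = FT f := by
  funext k
  rw [fourier_eq_ch, Real.fourier_eq']
  rfl

/-- Plancherel for `h ∈ L¹ ∩ L²`. -/
theorem plancherelFT (h : V → ℂ) (h1 : Integrable h) (h2 : MemLp h 2) :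
    ∫⁻ k, ‖FT h k‖ₑ ^ 2 = ∫⁻ x, ‖h x‖ₑ ^ 2 := by
  rw [← fourier_eq_FT]
  exact plancherel h h1 h2

lemma ch_continuous : Continuous (fun q : V × V => ch q.1 q.2) := by
  unfold ch
  fun_prop

/-- Joint measurability of the Fourier transform of a parametrised family. -/
lemma fourier_measurable {Z : Type*} [MeasurableSpace Z] (F : Z × V → ℂ) (hF : Measurable F) :
    Measurable (fun p : Z × V => FT (fun x => F (p.1, x)) p.2) := by
  have h1 : Measurable (fun q : (Z × V) × V => ch q.1.2 q.2 * F (q.1.1, q.2)) := by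
    have hb : Measurable (fun q : (Z × V) × V => ch q.1.2 q.2) :=
      ch_continuous.measurable.comp ((measurable_snd.comp measurable_fst).prodMk measurable_snd)
    have hc : Measurable (fun q : (Z × V) × V => F (q.1.1, q.2)) :=
      hF.comp ((measurable_fst.comp measurable_fst).prodMk measurable_snd)
    exact hb.mul hc
  have h2 := (h1.stronglyMeasurable.integral_prod_right' (ν := (volume : Measure V))).measurable
  simp_rw [fourier_eq_ch]
  exact h2

/-- The test function used for the Fourier relation. -/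
def eta (g : V → ℝ) (y k x : V) : ℂ := ch k x * (g (x - y) : ℂ)

lemma eta_contDiff (g : V → ℝ) (hg : ContDiff ℝ ∞ g) (y k : V) : ContDiff ℝ ∞ (eta g y k) := by
  unfold eta
  apply (ch_contDiff k).mul
  exact Complex.ofRealCLM.contDiff.comp (hg.comp (contDiff_id.sub contDiff_const))

lemma shift_compact (g : V → ℝ) (hgc : HasCompactSupport g) (y : V) :
    HasCompactSupport (fun x => g (x - y)) := by
  have := hgc.comp_homeomorph (Homeomorph.subRight y)
  exact this

lemma eta_compact (g : V → ℝ) (hgc : HasCompactSupport g) (y k : V) :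
    HasCompactSupport (eta g y k) := by
  unfold eta
  apply HasCompactSupport.mul_left
  exact (shift_compact g hgc y).comp_left (g := fun r : ℝ => (r : ℂ)) (by simp)

lemma eta_fderiv (g : V → ℝ) (hg : ContDiff ℝ ∞ g) (y k x v : V) :
    fderiv ℝ (eta g y k) x v = ch k x * ((fderiv ℝ g (x - y) v : ℝ) : ℂ)
      - (2 * Real.pi * Complex.I * (⟪v, k⟫ : ℝ)) * (ch k x * (g (x - y) : ℂ)) := by
  have hgd : HasFDerivAt g (fderiv ℝ g (x - y)) (x - y) :=
    (hg.differentiable (by norm_num)).differentiableAt.hasFDerivAt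
  have h1 : HasFDerivAt (fun x => g (x - y)) (fderiv ℝ g (x - y)) x := by
    have := hgd.comp x ((hasFDerivAt_id x).sub_const y)
    simpa using! this
  have h2 : HasFDerivAt (fun x => ((g (x - y) : ℝ) : ℂ))
      (Complex.ofRealCLM.comp (fderiv ℝ g (x - y))) x :=
    Complex.ofRealCLM.hasFDerivAt.comp x h1
  have h3 : HasFDerivAt (ch k) (fderiv ℝ (ch k) x) x :=
    ((ch_contDiff k).differentiable (by norm_num)).differentiableAt.hasFDerivAt
  have h4 := h3.mul h2
  have h5 : fderiv ℝ (eta g y k) x = _ := h4.fderiv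
  rw [h5]
  simp [ch_hasFDerivAt]
  ring

end Pool.Agent.Helper2.LL
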