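import Pool.Agent.Helper2.LL.Core

/-!
# Coherent-state lower bound: core computation on `V × Y`, second part
-/

open MeasureTheory Filter Topology FourierTransform
open scoped ENNReal ContDiff RealInnerProductSpace

noncomputable section

set_option linter.unusedSectionVars false

namespace Pool.Agent.Helper2.LL

variable {V : Type*} [NormedAddCommGroup V] [InnerProductSpace ℝ V] [FiniteDimensional ℝ V]
  [MeasurableSpace V] [BorelSpace V]
variable {Y : Type*} [MeasureSpace Y] [SFinite (volume : Measure Y)]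

/-- Almost every section of an `L²` function is in `L²`. -/
lemma section_memLp (U : V × Y → ℂ) (hU : Measurable U) (hU1 : ∫⁻ p, ‖U p‖ₑ ^ 2 < ⊤) :
    ∀ᵐ X : Y, MemLp (fun x => U (x, X)) 2 := by
  have h1 : ∫⁻ X : Y, ∫⁻ x : V, ‖U (x, X)‖ₑ ^ 2 < ⊤ := by
    have := lintegral_prod_symm (μ := (volume : Measure V)) (ν := (volume : Measure Y))
      (fun p => ‖U p‖ₑ ^ 2) (by fun_prop)
    rw [← this]
    exact hU1
  have h2 : Measurable (fun X : Y => ∫⁻ x : V, ‖U (x, X)‖ₑ ^ 2) := by
    apply Measurable.lintegral_prod_left' (f := fun p : V × Y => ‖U p‖ₑ ^ 2)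
    fun_prop
  filter_upwards [ae_lt_top h2 h1.ne] with X hX
  rw [memLp_two_iff_lintegral]
  · exact hX
  · exact (hU.comp (measurable_id.prodMk measurable_const)).aestronglyMeasurable

/-- The derivative integrand. -/
def psi (g : V → ℝ) (v : V) (U W : V × Y → ℂ) (y : V) (X : Y) (x : V) : ℂ :=
  (g (x - y) : ℂ) * W (x, X) + ((fderiv ℝ g (x - y) v : ℝ) : ℂ) * U (x, X)

/-- The windowed section. -/
def wsec (g : V → ℝ) (U : V × Y → ℂ) (y : V) (X : Y) (x : V) : ℂ :=
  (g (x - y) : ℂ) * U (x, X)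

lemma dg_cont (g : V → ℝ) (hg : ContDiff ℝ ∞ g) (v : V) :
    Continuous (fun x => fderiv ℝ g x v) :=
  (hg.continuous_fderiv (by norm_num)).clm_apply continuous_const

lemma dg_compact (g : V → ℝ) (hgc : HasCompactSupport g) (v : V) :
    HasCompactSupport (fun x => fderiv ℝ g x v) := by
  have := hgc.fderiv (𝕜 := ℝ)
  exact this.comp_left (g := fun L : V →L[ℝ] ℝ => L v) (by simp)

lemma shift_mul_memLp (c : V → ℝ) (hc : Continuous c) (hcc : HasCompactSupport c) (y : V)
    (h : V → ℂ) (h2 : MemLp h 2) :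
    Integrable (fun x => (c (x - y) : ℂ) * h x) ∧ MemLp (fun x => (c (x - y) : ℂ) * h x) 2 := by
  apply cc_mul_memLp (fun x => (c (x - y) : ℂ))
  · exact Complex.continuous_ofReal.comp (hc.comp (continuous_id.sub continuous_const))
  · exact (shift_compact c hcc y).comp_left (g := fun r : ℝ => (r : ℂ)) (by simp)
  · exact h2

lemma ch_mul_integrable (k : V) (h : V → ℂ) (hh : Integrable h) :
    Integrable (fun x => ch k x * h x) := by
  apply hh.bdd_mul (c := 1)
  · exact (ch_contDiff k).continuous.aestronglyMeasurable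
  · exact Eventually.of_forall fun x => (ch_norm k x).le

/-- Fourier relation. -/
lemma fourier_rel (g : V → ℝ) (hg : ContDiff ℝ ∞ g) (hgc : HasCompactSupport g) (v : V)
    (U W : V × Y → ℂ) (hU : Measurable U) (hW : Measurable W)
    (hU1 : ∫⁻ p, ‖U p‖ₑ ^ 2 < ⊤) (hW1 : ∫⁻ p, ‖W p‖ₑ ^ 2 < ⊤)
    (hweak : ∀ η : V → ℂ, ContDiff ℝ ∞ η → HasCompactSupport η →
      ∀ᵐ X : Y, ∫ x, fderiv ℝ η x v * U (x, X) = - ∫ x, η x * W (x, X))
    (y k : V) :
    ∀ᵐ X : Y, FT (psi g v U W y X) k =
      (2 * Real.pi * Complex.I * (⟪v, k⟫ : ℝ)) * FT (wsec g U y X) k := by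
  filter_upwards [section_memLp U hU hU1, section_memLp W hW hW1,
    hweak (eta g y k) (eta_contDiff g hg y k) (eta_compact g hgc y k)] with X hUX hWX hX
  have i1 : Integrable (fun x => ch k x * ((g (x - y) : ℂ) * U (x, X))) :=
    ch_mul_integrable k _ (shift_mul_memLp g hg.continuous hgc y _ hUX).1
  have i2 : Integrable (fun x => ch k x * (((fderiv ℝ g (x - y) v : ℝ) : ℂ) * U (x, X))) :=
    ch_mul_integrable k _
      (shift_mul_memLp (fun x => fderiv ℝ g x v) (dg_cont g hg v) (dg_compact g hgc v) y _ hUX).1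
  have i3 : Integrable (fun x => ch k x * ((g (x - y) : ℂ) * W (x, X))) :=
    ch_mul_integrable k _ (shift_mul_memLp g hg.continuous hgc y _ hWX).1
  rw [fourier_eq_ch, fourier_eq_ch]
  have e1 : ∫ x, fderiv ℝ (eta g y k) x v * U (x, X) =
      (∫ x, ch k x * (((fderiv ℝ g (x - y) v : ℝ) : ℂ) * U (x, X)))
      - (2 * Real.pi * Complex.I * (⟪v, k⟫ : ℝ)) * ∫ x, ch k x * ((g (x - y) : ℂ) * U (x, X)) := by
    rw [← integral_const_mul, ← integral_sub i2 (i1.const_mul _)]
    refine integral_congr_ae (Eventually.of_forall fun x => ?_)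
    simp only [eta_fderiv g hg]
    ring
  have e2 : ∫ x, eta g y k x * W (x, X) = ∫ x, ch k x * ((g (x - y) : ℂ) * W (x, X)) := by
    refine integral_congr_ae (Eventually.of_forall fun x => ?_)
    simp only [eta]
    ring
  have e3 : ∫ x, ch k x * psi g v U W y X x =
      (∫ x, ch k x * ((g (x - y) : ℂ) * W (x, X)))
      + ∫ x, ch k x * (((fderiv ℝ g (x - y) v : ℝ) : ℂ) * U (x, X)) := by
    rw [← integral_add i3 i2]
    refine integral_congr_ae (Eventually.of_forall fun x => ?_)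
    simp only [psi]
    ring
  rw [e1, e2] at hX
  rw [e3]
  have e4 : ∫ x, ch k x * wsec g U y X x = ∫ x, ch k x * ((g (x - y) : ℂ) * U (x, X)) := rfl
  rw [e4]
  linear_combination hX

end Pool.Agent.Helper2.LL
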