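import Pool.Agent.Helper2.LL.Core2

/-!
# Coherent-state lower bound: core computation on `V × Y`, second part
-/

open MeasureTheory Filter Topology FourierTransform
open scoped ENNReal ContDiff RealInnerProductSpace

noncomputable section

set_option linter.unusedSectionVars false

namespace Pool.Agent.Helper2.LL

variable {V : Type*} [NormedAddCommGroup V] [InnerProductSpace ℝ V] [FiniteDimensional ℝ V]
  [MeasurableSpace V] [BorelSpace V]
variable {Y : Type*} [MeasureSpace Y] [SFinite (volume : Measure Y)]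

/-- The average over the window position. -/
lemma window_average (g : V → ℝ) (hg : ContDiff ℝ ∞ g) (hgc : HasCompactSupport g)
    (hg1 : ∫ x, g x ^ 2 = 1) (v : V) (u w : ℂ) (x : V) :
    ∫⁻ y, ‖(g (x - y) : ℂ) * w + ((fderiv ℝ g (x - y) v : ℝ) : ℂ) * u‖ₑ ^ 2 =
      ‖w‖ₑ ^ 2 + ENNReal.ofReal (∫ x, (fderiv ℝ g x v) ^ 2) * ‖u‖ₑ ^ 2 := by
  have h0 : ∫⁻ y, ‖(g (x - y) : ℂ) * w + ((fderiv ℝ g (x - y) v : ℝ) : ℂ) * u‖ₑ ^ 2 =
      ∫⁻ y, ‖(g y : ℂ) * w + ((fderiv ℝ g y v : ℝ) : ℂ) * u‖ₑ ^ 2 := by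
    exact lintegral_sub_left_eq_self
      (fun y => ‖(g y : ℂ) * w + ((fderiv ℝ g y v : ℝ) : ℂ) * u‖ₑ ^ 2) x
  rw [h0]
  have hdc := dg_cont g hg v
  have hdcc := dg_compact g hgc v
  have c1 : MemLp (fun y => (g y : ℂ) * w) 2 := by
    apply Continuous.memLp_of_hasCompactSupport
    · have := hg.continuous
      fun_prop
    · exact (hgc.comp_left (g := fun r : ℝ => (r : ℂ) * w) (by simp))
  have c2 : MemLp (fun y => ((fderiv ℝ g y v : ℝ) : ℂ) * u) 2 := by
    apply Continuous.memLp_of_hasCompactSupport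
    · fun_prop
    · exact (hdcc.comp_left (g := fun r : ℝ => (r : ℂ) * u) (by simp))
  have c3 : MemLp (fun y => (g y : ℂ) * w + ((fderiv ℝ g y v : ℝ) : ℂ) * u) 2 := c1.add c2
  rw [← ofReal_integral_norm_sq c3]
  have ig2 : Integrable (fun y => g y ^ 2) := by
    have h2 : MemLp g 2 := hg.continuous.memLp_of_hasCompactSupport hgc
    exact h2.integrable_sq
  have id2 : Integrable (fun y => (fderiv ℝ g y v) ^ 2) := by
    have h2 : MemLp (fun y => fderiv ℝ g y v) 2 := hdc.memLp_of_hasCompactSupport hdcc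
    exact h2.integrable_sq
  have igd : Integrable (fun y => g y * fderiv ℝ g y v) :=
    (hg.continuous.mul hdc).integrable_of_hasCompactSupport (hgc.mul_right)
  have cross : ∫ y, g y * fderiv ℝ g y v = 0 := by
    have h1 := integral_mul_fderiv_eq_neg_fderiv_mul_of_integrable (μ := (volume : Measure V))
      (f := g) (g := g) (v := v) (by
        have := igd
        refine this.congr (Eventually.of_forall fun y => ?_)
        simp only [mul_comm]) igd (by
        refine ig2.congr (Eventually.of_forall fun y => ?_)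
        simp only [sq]) (fun x _ => (hg.differentiable (by norm_num)) x)
        (fun x _ => (hg.differentiable (by norm_num)) x)
    have h2 : ∫ y, fderiv ℝ g y v * g y = ∫ y, g y * fderiv ℝ g y v :=
      integral_congr_ae (Eventually.of_forall fun y => by simp only [mul_comm])
    rw [h2] at h1
    linarith
  have expand : ∀ y, ‖(g y : ℂ) * w + ((fderiv ℝ g y v : ℝ) : ℂ) * u‖ ^ 2 =
      g y ^ 2 * ‖w‖ ^ 2 + (fderiv ℝ g y v) ^ 2 * ‖u‖ ^ 2
        + (g y * fderiv ℝ g y v) * (2 * (w * (starRingEnd ℂ) u).re) := by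
    intro y
    rw [← Complex.normSq_eq_norm_sq, ← Complex.normSq_eq_norm_sq, ← Complex.normSq_eq_norm_sq,
      Complex.normSq_add]
    simp only [Complex.normSq_apply, Complex.mul_re, Complex.mul_im, Complex.ofReal_re,
      Complex.ofReal_im, Complex.conj_re, Complex.conj_im, map_mul, Complex.conj_ofReal]
    ring
  simp_rw [expand]
  have s1 : ∫ y, (g y ^ 2 * ‖w‖ ^ 2 + (fderiv ℝ g y v) ^ 2 * ‖u‖ ^ 2
        + (g y * fderiv ℝ g y v) * (2 * (w * (starRingEnd ℂ) u).re)) =
      (∫ y, (g y ^ 2 * ‖w‖ ^ 2 + (fderiv ℝ g y v) ^ 2 * ‖u‖ ^ 2))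
        + ∫ y, (g y * fderiv ℝ g y v) * (2 * (w * (starRingEnd ℂ) u).re) :=
    integral_add ((ig2.mul_const _).add (id2.mul_const _)) (igd.mul_const _)
  have s2 : ∫ y, (g y ^ 2 * ‖w‖ ^ 2 + (fderiv ℝ g y v) ^ 2 * ‖u‖ ^ 2) =
      (∫ y, g y ^ 2 * ‖w‖ ^ 2) + ∫ y, (fderiv ℝ g y v) ^ 2 * ‖u‖ ^ 2 :=
    integral_add (ig2.mul_const _) (id2.mul_const _)
  rw [s1, s2, integral_mul_const, integral_mul_const, integral_mul_const, cross, hg1]
  have hpos : 0 ≤ ∫ x, (fderiv ℝ g x v) ^ 2 := integral_nonneg fun x => sq_nonneg _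
  rw [zero_mul, add_zero, one_mul, ENNReal.ofReal_add (by positivity) (by positivity),
    ENNReal.ofReal_mul hpos, ENNReal.ofReal_pow (norm_nonneg _), ENNReal.ofReal_pow (norm_nonneg _),
    ofReal_norm, ofReal_norm]

end Pool.Agent.Helper2.LL
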