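import Pool.Agent.Helper2.LL.Core3

/-!
# Coherent-state lower bound: core computation on `V × Y`, assembly
-/

open MeasureTheory Filter Topology FourierTransform
open scoped ENNReal ContDiff RealInnerProductSpace

noncomputable section

set_option linter.unusedSectionVars false

namespace Pool.Agent.Helper2.LL

variable {V : Type*} [NormedAddCommGroup V] [InnerProductSpace ℝ V] [FiniteDimensional ℝ V]
  [MeasurableSpace V] [BorelSpace V]
variable {Y : Type*} [MeasureSpace Y] [SFinite (volume : Measure Y)]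

lemma psi_measurable (g : V → ℝ) (hg : ContDiff ℝ ∞ g) (v : V) (U W : V × Y → ℂ)
    (hU : Measurable U) (hW : Measurable W) :
    Measurable (fun p : (V × Y) × V => psi g v U W p.1.1 p.1.2 p.2) := by
  have h1 : Measurable (fun p : (V × Y) × V => (g (p.2 - p.1.1) : ℂ)) :=
    Complex.measurable_ofReal.comp (hg.continuous.measurable.comp
      (measurable_snd.sub (measurable_fst.comp measurable_fst)))
  have h2 : Measurable (fun p : (V × Y) × V => ((fderiv ℝ g (p.2 - p.1.1) v : ℝ) : ℂ)) :=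
    Complex.measurable_ofReal.comp ((dg_cont g hg v).measurable.comp
      (measurable_snd.sub (measurable_fst.comp measurable_fst)))
  have h3 : Measurable (fun p : (V × Y) × V => U (p.2, p.1.2)) :=
    hU.comp (measurable_snd.prodMk (measurable_snd.comp measurable_fst))
  have h4 : Measurable (fun p : (V × Y) × V => W (p.2, p.1.2)) :=
    hW.comp (measurable_snd.prodMk (measurable_snd.comp measurable_fst))
  exact (h1.mul h4).add (h2.mul h3)

lemma wsec_measurable (g : V → ℝ) (hg : ContDiff ℝ ∞ g) (U : V × Y → ℂ) (hU : Measurable U) :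
    Measurable (fun p : (V × Y) × V => wsec g U p.1.1 p.1.2 p.2) := by
  have h1 : Measurable (fun p : (V × Y) × V => (g (p.2 - p.1.1) : ℂ)) :=
    Complex.measurable_ofReal.comp (hg.continuous.measurable.comp
      (measurable_snd.sub (measurable_fst.comp measurable_fst)))
  have h3 : Measurable (fun p : (V × Y) × V => U (p.2, p.1.2)) :=
    hU.comp (measurable_snd.prodMk (measurable_snd.comp measurable_fst))
  exact h1.mul h3

/-- `∫⁻ k, ∫⁻ X, ‖FT (F X) k‖ₑ² = ∫⁻ X, ∫⁻ x, ‖F X x‖ₑ²`. -/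
lemma plancherel_param (F : Y × V → ℂ) (hF : Measurable F)
    (h : ∀ᵐ X : Y, Integrable (fun x => F (X, x)) ∧ MemLp (fun x => F (X, x)) 2) :
    ∫⁻ k : V, ∫⁻ X : Y, ‖FT (fun x => F (X, x)) k‖ₑ ^ 2 =
      ∫⁻ X : Y, ∫⁻ x : V, ‖F (X, x)‖ₑ ^ 2 := by
  rw [lintegral_lintegral_swap]
  · refine lintegral_congr_ae ?_
    filter_upwards [h] with X hX
    exact plancherelFT _ hX.1 hX.2
  · have h1 := fourier_measurable F hF
    have h2 : Measurable (fun p : V × Y => FT (fun x => F (p.2, x)) p.1) :=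
      h1.comp measurable_swap
    exact (h2.enorm.pow_const 2).aemeasurable

variable {ι : Type*} [Fintype ι]

/-- The phase-space density. -/
def mdens (N : ℝ≥0∞) (g : V → ℝ) (U : V × Y → ℂ) (y k : V) : ℝ≥0∞ :=
  N * ∫⁻ X : Y, ‖FT (wsec g U y X) k‖ₑ ^ 2

lemma mdens_measurable (N : ℝ≥0∞) (g : V → ℝ) (hg : ContDiff ℝ ∞ g) (U : V × Y → ℂ)
    (hU : Measurable U) (y : V) : Measurable (mdens N g U y) := by
  have h1 := fourier_measurable (Z := V × Y) (fun p => wsec g U p.1.1 p.1.2 p.2)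
    (wsec_measurable g hg U hU)
  have h2 : Measurable (fun p : V × Y => FT (wsec g U y p.2) p.1) :=
    h1.comp ((measurable_const.prodMk measurable_snd).prodMk measurable_fst)
  exact (Measurable.lintegral_prod_right' (f := fun p : V × Y => ‖FT (wsec g U y p.2) p.1‖ₑ ^ 2)
    (h2.enorm.pow_const 2)).const_mul N

lemma mdens_le_one (N : ℝ≥0∞) (g : V → ℝ) (hg : ContDiff ℝ ∞ g) (hgc : HasCompactSupport g)
    (hg1 : ∫ x, g x ^ 2 = 1) (U : V × Y → ℂ)
    (hpauli : ∀ e : V → ℂ, MemLp e 2 → ∫ x, ‖e x‖ ^ 2 ≤ 1 →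
      N * ∫⁻ X : Y, ‖∫ x, star (e x) * U (x, X)‖ₑ ^ 2 ≤ 1) (y k : V) :
    mdens N g U y k ≤ 1 := by
  have h := hpauli (fun x => star (eta g y k x))
    (by
      have : MemLp (eta g y k) 2 :=
        (eta_contDiff g hg y k).continuous.memLp_of_hasCompactSupport (eta_compact g hgc y k)
      exact this.star)
    (by
      have h1 : ∀ x, ‖star (eta g y k x)‖ ^ 2 = g (x - y) ^ 2 := by
        intro x
        rw [norm_star]
        simp only [eta, norm_mul, ch_norm, one_mul, Complex.norm_real, Real.norm_eq_abs, sq_abs]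
      simp_rw [h1]
      rw [integral_sub_right_eq_self (fun x => g x ^ 2) y, hg1])
  refine le_trans (le_of_eq ?_) h
  unfold mdens
  congr 1
  refine lintegral_congr fun X => ?_
  congr 2
  rw [fourier_eq_ch]
  refine integral_congr_ae (Eventually.of_forall fun x => ?_)
  simp only [star_star, eta, wsec]
  ring

lemma mdens_integral (N : ℝ≥0∞) (hN : N ≠ ⊤) (g : V → ℝ) (hg : ContDiff ℝ ∞ g)
    (hgc : HasCompactSupport g) (U : V × Y → ℂ) (hU : Measurable U)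
    (hU1 : ∫⁻ p, ‖U p‖ₑ ^ 2 < ⊤)
    (f : V → ℝ≥0∞) (hdens : ∀ᵐ x, ∫⁻ X : Y, ‖U (x, X)‖ₑ ^ 2 = f x) (y : V) :
    ∫⁻ k, mdens N g U y k = N * ∫⁻ x, ENNReal.ofReal (g (x - y) ^ 2) * f x := by
  unfold mdens
  rw [lintegral_const_mul' _ _ hN]
  congr 1
  have hm : Measurable (fun p : Y × V => wsec g U y p.1 p.2) :=
    (wsec_measurable g hg U hU).comp ((measurable_const.prodMk measurable_fst).prodMk
      measurable_snd)
  have h1 := plancherel_param (fun p : Y × V => wsec g U y p.1 p.2) hm (by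
    filter_upwards [section_memLp U hU hU1] with X hX
    exact shift_mul_memLp g hg.continuous hgc y _ hX)
  refine h1.trans ?_
  rw [lintegral_lintegral_swap ((hm.enorm.pow_const 2).aemeasurable)]
  refine lintegral_congr_ae ?_
  filter_upwards [hdens] with x hx
  rw [← hx, ← lintegral_const_mul' _ _ ENNReal.ofReal_ne_top]
  refine lintegral_congr fun X => ?_
  exact enorm_sq_real_mul _ _

lemma mdens_second (b : OrthonormalBasis ι ℝ V) (N : ℝ≥0∞) (hN : N ≠ ⊤) (g : V → ℝ)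
    (hg : ContDiff ℝ ∞ g)
    (hgc : HasCompactSupport g) (U : V × Y → ℂ) (hU : Measurable U)
    (hU1 : ∫⁻ p, ‖U p‖ₑ ^ 2 < ⊤) (W : ι → V × Y → ℂ) (hW : ∀ a, Measurable (W a))
    (hW1 : ∀ a, ∫⁻ p, ‖W a p‖ₑ ^ 2 < ⊤)
    (hweak : ∀ a, ∀ η : V → ℂ, ContDiff ℝ ∞ η → HasCompactSupport η →
      ∀ᵐ X : Y, ∫ x, fderiv ℝ η x (b a) * U (x, X) = - ∫ x, η x * W a (x, X)) (y : V) :
    ENNReal.ofReal (4 * Real.pi ^ 2) * ∫⁻ k, ENNReal.ofReal (‖k‖ ^ 2) * mdens N g U y k =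
      N * ∑ a, ∫⁻ X : Y, ∫⁻ x : V, ‖psi g (b a) U (W a) y X x‖ₑ ^ 2 := by
  have h1 : ∀ k, ENNReal.ofReal (4 * Real.pi ^ 2) * (ENNReal.ofReal (‖k‖ ^ 2) * mdens N g U y k) =
      N * ∑ a, ∫⁻ X : Y, ‖FT (psi g (b a) U (W a) y X) k‖ₑ ^ 2 := by
    intro k
    have hk : ENNReal.ofReal (4 * Real.pi ^ 2) * ENNReal.ofReal (‖k‖ ^ 2) =
        ∑ a, ENNReal.ofReal (4 * Real.pi ^ 2 * ⟪b a, k⟫ ^ 2) := by
      rw [← ENNReal.ofReal_mul (by positivity), ← ENNReal.ofReal_sum_of_nonneg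
        (fun a _ => by positivity), ← Finset.mul_sum, b.sum_sq_inner_right]
    unfold mdens
    rw [← mul_assoc, hk, mul_left_comm, Finset.sum_mul]
    congr 1
    refine Finset.sum_congr rfl fun a _ => ?_
    rw [← lintegral_const_mul' _ _ ENNReal.ofReal_ne_top]
    refine lintegral_congr_ae ?_
    filter_upwards [fourier_rel g hg hgc (b a) U (W a) hU (hW a) hU1 (hW1 a) (hweak a) y k]
      with X hX
    rw [hX, enorm_mul, mul_pow]
    congr 1
    rw [← ofReal_norm, ← ENNReal.ofReal_pow (norm_nonneg _)]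
    congr 1
    simp only [norm_mul, Complex.norm_real, Complex.norm_I, Complex.norm_ofNat, mul_one,
      Real.norm_eq_abs, mul_pow, sq_abs]
    norm_num
  have hm : ∀ a, Measurable (fun p : Y × V => psi g (b a) U (W a) y p.1 p.2) := fun a =>
    (psi_measurable g hg (b a) U (W a) hU (hW a)).comp
      ((measurable_const.prodMk measurable_fst).prodMk measurable_snd)
  have hmF : ∀ a, Measurable (fun k : V => ∫⁻ X : Y, ‖FT (psi g (b a) U (W a) y X) k‖ₑ ^ 2) := by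
    intro a
    have h1 := fourier_measurable (Z := Y) (fun p => psi g (b a) U (W a) y p.1 p.2) (hm a)
    have h2 : Measurable (fun p : V × Y => FT (psi g (b a) U (W a) y p.2) p.1) :=
      h1.comp measurable_swap
    exact Measurable.lintegral_prod_right'
      (f := fun p : V × Y => ‖FT (psi g (b a) U (W a) y p.2) p.1‖ₑ ^ 2) (h2.enorm.pow_const 2)
  rw [← lintegral_const_mul' _ _ ENNReal.ofReal_ne_top]
  simp_rw [h1]
  rw [lintegral_const_mul' _ _ hN, lintegral_finsetSum _ (fun a _ => hmF a)]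
  congr 1
  refine Finset.sum_congr rfl fun a _ => ?_
  refine plancherel_param (fun p : Y × V => psi g (b a) U (W a) y p.1 p.2) (hm a) ?_
  filter_upwards [section_memLp U hU hU1, section_memLp (W a) (hW a) (hW1 a)] with X hX hX'
  have t1 := shift_mul_memLp g hg.continuous hgc y _ hX'
  have t2 := shift_mul_memLp (fun x => fderiv ℝ g x (b a)) (dg_cont g hg (b a))
    (dg_compact g hgc (b a)) y _ hX
  exact ⟨t1.1.add t2.1, t1.2.add t2.2⟩

/-- The window average of the gradient term. -/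
lemma psi_average (g : V → ℝ) (hg : ContDiff ℝ ∞ g)
    (hgc : HasCompactSupport g) (hg1 : ∫ x, g x ^ 2 = 1) (v : V) (U W : V × Y → ℂ)
    (hU : Measurable U) (hW : Measurable W)
    (hU1 : ∫⁻ p, ‖U p‖ₑ ^ 2 = 1) :
    ∫⁻ y : V, ∫⁻ X : Y, ∫⁻ x : V, ‖psi g v U W y X x‖ₑ ^ 2 =
      (∫⁻ p, ‖W p‖ₑ ^ 2) + ENNReal.ofReal (∫ x, (fderiv ℝ g x v) ^ 2) := by
  have hm := psi_measurable g hg v U W hU hW
  have hmm : Measurable (fun p : (V × Y) × V => ‖psi g v U W p.1.1 p.1.2 p.2‖ₑ ^ 2) :=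
    hm.enorm.pow_const 2
  have h1 : Measurable (fun p : V × Y => ∫⁻ x : V, ‖psi g v U W p.1 p.2 x‖ₑ ^ 2) :=
    Measurable.lintegral_prod_right' (f := fun p : (V × Y) × V =>
      ‖psi g v U W p.1.1 p.1.2 p.2‖ₑ ^ 2) hmm
  rw [lintegral_lintegral_swap h1.aemeasurable]
  have h2 : ∀ X : Y, ∫⁻ y : V, ∫⁻ x : V, ‖psi g v U W y X x‖ₑ ^ 2 =
      ∫⁻ x : V, (‖W (x, X)‖ₑ ^ 2 + ENNReal.ofReal (∫ x, (fderiv ℝ g x v) ^ 2) * ‖U (x, X)‖ₑ ^ 2) := by
    intro X
    rw [lintegral_lintegral_swap]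
    · refine lintegral_congr fun x => ?_
      exact window_average g hg hgc hg1 v (U (x, X)) (W (x, X)) x
    · have : Measurable (fun p : V × V => ((p.1, X), p.2)) :=
        (measurable_fst.prodMk measurable_const).prodMk measurable_snd
      exact (hmm.comp this).aemeasurable
  simp_rw [h2]
  have hUm : Measurable (fun p : V × Y => ‖U p‖ₑ ^ 2) := hU.enorm.pow_const 2
  have hWm : Measurable (fun p : V × Y => ‖W p‖ₑ ^ 2) := hW.enorm.pow_const 2
  have h3 : ∫⁻ p : V × Y, (‖W p‖ₑ ^ 2 + ENNReal.ofReal (∫ x, (fderiv ℝ g x v) ^ 2) * ‖U p‖ₑ ^ 2) =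
      ∫⁻ X : Y, ∫⁻ x : V, (‖W (x, X)‖ₑ ^ 2 +
        ENNReal.ofReal (∫ x, (fderiv ℝ g x v) ^ 2) * ‖U (x, X)‖ₑ ^ 2) :=
    lintegral_prod_symm (μ := (volume : Measure V)) (ν := (volume : Measure Y)) _
      ((hWm.add (hUm.const_mul _)).aemeasurable)
  rw [← h3, lintegral_add_left hWm, lintegral_const_mul _ hUm, hU1, mul_one]

theorem core (b : OrthonormalBasis ι ℝ V) (N : ℝ≥0∞) (hN : N ≠ ⊤)
    (U : V × Y → ℂ) (hU : Measurable U) (hU1 : ∫⁻ p, ‖U p‖ₑ ^ 2 = 1)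
    (W : ι → V × Y → ℂ) (hW : ∀ a, Measurable (W a)) (hW1 : ∀ a, ∫⁻ p, ‖W a p‖ₑ ^ 2 < ⊤)
    (hweak : ∀ a, ∀ η : V → ℂ, ContDiff ℝ ∞ η → HasCompactSupport η →
      ∀ᵐ X : Y, ∫ x, fderiv ℝ η x (b a) * U (x, X) = - ∫ x, η x * W a (x, X))
    (hpauli : ∀ e : V → ℂ, MemLp e 2 → ∫ x, ‖e x‖ ^ 2 ≤ 1 →
      N * ∫⁻ X : Y, ‖∫ x, star (e x) * U (x, X)‖ₑ ^ 2 ≤ 1)
    (f : V → ℝ≥0∞) (hdens : ∀ᵐ x, ∫⁻ X : Y, ‖U (x, X)‖ₑ ^ 2 = f x)
    (C : ℝ≥0∞) (p : ℝ)
    (hbath : ∀ m : V → ℝ≥0∞, Measurable m → (∀ k, m k ≤ 1) →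
      C * (∫⁻ k, m k) ^ p ≤ ∫⁻ k, ENNReal.ofReal (‖k‖ ^ 2) * m k)
    (g : V → ℝ) (hg : ContDiff ℝ ∞ g) (hgc : HasCompactSupport g) (hg1 : ∫ x, g x ^ 2 = 1) :
    ENNReal.ofReal (4 * Real.pi ^ 2) *
        (C * ∫⁻ y, (N * ∫⁻ x, ENNReal.ofReal (g (x - y) ^ 2) * f x) ^ p) ≤
      N * ∑ a, ((∫⁻ q, ‖W a q‖ₑ ^ 2) + ENNReal.ofReal (∫ x, (fderiv ℝ g x (b a)) ^ 2)) := by
  have hU1' : ∫⁻ p, ‖U p‖ₑ ^ 2 < ⊤ := by rw [hU1]; exact ENNReal.one_lt_top
  calc ENNReal.ofReal (4 * Real.pi ^ 2) *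
        (C * ∫⁻ y, (N * ∫⁻ x, ENNReal.ofReal (g (x - y) ^ 2) * f x) ^ p)
      ≤ ENNReal.ofReal (4 * Real.pi ^ 2) *
        (∫⁻ y, C * (N * ∫⁻ x, ENNReal.ofReal (g (x - y) ^ 2) * f x) ^ p) := by
        gcongr
        exact lintegral_const_mul_le _ _
    _ ≤ ENNReal.ofReal (4 * Real.pi ^ 2) *
        (∫⁻ y, ∫⁻ k, ENNReal.ofReal (‖k‖ ^ 2) * mdens N g U y k) := by
        gcongr with y
        rw [← mdens_integral N hN g hg hgc U hU hU1' f hdens y]
        exact hbath _ (mdens_measurable N g hg U hU y)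
          (fun k => mdens_le_one N g hg hgc hg1 U hpauli y k)
    _ ≤ ∫⁻ y, ENNReal.ofReal (4 * Real.pi ^ 2) *
          ∫⁻ k, ENNReal.ofReal (‖k‖ ^ 2) * mdens N g U y k := lintegral_const_mul_le _ _
    _ = ∫⁻ y, N * ∑ a, ∫⁻ X : Y, ∫⁻ x : V, ‖psi g (b a) U (W a) y X x‖ₑ ^ 2 := by
        refine lintegral_congr fun y => ?_
        exact mdens_second b N hN g hg hgc U hU hU1' W hW hW1 hweak y
    _ = N * ∑ a, ((∫⁻ q, ‖W a q‖ₑ ^ 2) + ENNReal.ofReal (∫ x, (fderiv ℝ g x (b a)) ^ 2)) := by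
        rw [lintegral_const_mul' _ _ hN, lintegral_finsetSum]
        · congr 1
          refine Finset.sum_congr rfl fun a _ => ?_
          exact psi_average g hg hgc hg1 (b a) U (W a) hU (hW a) hU1
        · intro a _
          have hm := psi_measurable g hg (b a) U (W a) hU (hW a)
          have h1 : Measurable (fun p : V × Y => ∫⁻ x : V, ‖psi g (b a) U (W a) p.1 p.2 x‖ₑ ^ 2) :=
            Measurable.lintegral_prod_right' (f := fun p : (V × Y) × V =>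
              ‖psi g (b a) U (W a) p.1.1 p.1.2 p.2‖ₑ ^ 2) (hm.enorm.pow_const 2)
          exact Measurable.lintegral_prod_right' (f := fun p : V × Y =>
            ∫⁻ x : V, ‖psi g (b a) U (W a) p.1 p.2 x‖ₑ ^ 2) h1

end Pool.Agent.Helper2.LL
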