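import Pool.Agent.Helper2.LL.Transfer2

/-!
# All particles carry the same kinetic energy
-/

open MeasureTheory Filter Topology
open scoped ENNReal ContDiff RealInnerProductSpace

noncomputable section

set_option linter.unusedSectionVars false

namespace Pool.Agent.Helper2.LL

open Pool.Agent.Helper1.LL

variable {V : Type*} [NormedAddCommGroup V] [InnerProductSpace ℝ V] [FiniteDimensional ℝ V]
  [MeasurableSpace V] [BorelSpace V] {n : ℕ}

lemma mp_perm {m : ℕ} (σ : Equiv.Perm (Fin m)) :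
    MeasurePreserving (fun z : Fin m → V => z ∘ σ) := by
  have h := volume_measurePreserving_piCongrLeft (fun _ : Fin m => V) σ⁻¹
  have e : (fun z : Fin m → V => z ∘ σ) =
      ⇑(MeasurableEquiv.piCongrLeft (fun _ : Fin m => V) σ⁻¹) := by
    funext z
    funext j
    have := Equiv.piCongrLeft_apply (P := fun _ : Fin m => V) (e := σ⁻¹) z j
    rw [MeasurableEquiv.coe_piCongrLeft, this, eq_rec_constant]
    rfl
  rw [e]
  exact h

lemma emb_perm {m : ℕ} (σ : Equiv.Perm (Fin m)) :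
    MeasurableEmbedding (fun z : Fin m → V => z ∘ σ) := by
  have e : (fun z : Fin m → V => z ∘ σ) =
      ⇑(MeasurableEquiv.piCongrLeft (fun _ : Fin m => V) σ⁻¹) := by
    funext z
    funext j
    have := Equiv.piCongrLeft_apply (P := fun _ : Fin m => V) (e := σ⁻¹) z j
    rw [MeasurableEquiv.coe_piCongrLeft, this, eq_rec_constant]
    rfl
  rw [e]
  exact MeasurableEquiv.measurableEmbedding _

lemma integral_perm {m : ℕ} {F : Type*} [NormedAddCommGroup F] [NormedSpace ℝ F]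
    (σ : Equiv.Perm (Fin m)) (h : (Fin m → V) → F) :
    ∫ z, h (z ∘ σ) = ∫ z, h z :=
  (mp_perm σ).integral_comp (emb_perm σ) h

/-- Uniqueness of weak derivatives. -/
lemma weakDeriv_unique {E : Type*} [NormedAddCommGroup E] [NormedSpace ℝ E]
    [FiniteDimensional ℝ E] [MeasureSpace E] [BorelSpace E]
    (u g h : E → ℂ) (v : E) (hg : LocallyIntegrable g volume) (hh : LocallyIntegrable h volume)
    (h1 : IsWeakDeriv u g v) (h2 : IsWeakDeriv u h v) : ∀ᵐ x, g x = h x := by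
  refine ae_eq_of_integral_contDiff_smul_eq hg hh ?_
  intro χ hχ hχc
  have e1 := h1 χ hχ hχc
  have e2 := h2 χ hχ hχc
  rw [e1] at e2
  exact neg_injective e2

lemma sign_sq (σ : Equiv.Perm (Fin n)) :
    (((Equiv.Perm.sign σ : ℤ) : ℂ)) * ((Equiv.Perm.sign σ : ℤ) : ℂ) = 1 := by
  rcases Int.units_eq_one_or (Equiv.Perm.sign σ) with h | h <;> rw [h] <;> simp

lemma sign_norm (σ : Equiv.Perm (Fin n)) : ‖((Equiv.Perm.sign σ : ℤ) : ℂ)‖ = 1 := by
  rcases Int.units_eq_one_or (Equiv.Perm.sign σ) with h | h <;> rw [h] <;> simp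

/-- The weak derivative in the direction of particle `i` from that of particle `0`. -/
lemma weak_perm (Ψ D : (Fin (n + 1) → V) → ℂ) (v : V)
    (anti : ∀ σ : Equiv.Perm (Fin (n + 1)),
      ∀ᵐ x, Ψ (x ∘ σ) = ((Equiv.Perm.sign σ : ℤ) : ℂ) * Ψ x)
    (hweak : IsWeakDeriv Ψ D (Pi.single 0 v)) (i : Fin (n + 1)) :
    IsWeakDeriv Ψ (fun z => ((Equiv.Perm.sign (Equiv.swap 0 i) : ℤ) : ℂ) *
      D (z ∘ Equiv.swap 0 i)) (Pi.single i v) := by
  intro χ hχ hχc
  set σ : Equiv.Perm (Fin (n + 1)) := Equiv.swap 0 i with hσ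
  set s : ℂ := ((Equiv.Perm.sign σ : ℤ) : ℂ) with hs
  have hss : s * s = 1 := sign_sq σ
  have hσσ : ∀ z : Fin (n + 1) → V, (z ∘ σ) ∘ σ = z := by
    intro z
    funext j
    simp [hσ]
  let S : (Fin (n + 1) → V) →L[ℝ] (Fin (n + 1) → V) :=
    ContinuousLinearMap.pi fun j => ContinuousLinearMap.proj (σ j)
  have hS : ∀ z, S z = z ∘ σ := fun z => rfl
  have hχS : ContDiff ℝ ∞ (fun z : Fin (n + 1) → V => χ (z ∘ σ)) := hχ.comp S.contDiff
  have hχSc : HasCompactSupport (fun z : Fin (n + 1) → V => χ (z ∘ σ)) := by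
    let H : (Fin (n + 1) → V) ≃ₜ (Fin (n + 1) → V) :=
      { toFun := fun z => z ∘ σ
        invFun := fun z => z ∘ σ
        left_inv := hσσ
        right_inv := hσσ
        continuous_toFun := S.continuous
        continuous_invFun := S.continuous }
    exact hχc.comp_homeomorph H
  have hfd : ∀ z, fderiv ℝ (fun z : Fin (n + 1) → V => χ (z ∘ σ)) z (Pi.single 0 v) =
      fderiv ℝ χ (z ∘ σ) (Pi.single i v) := by
    intro z
    have h1 : HasFDerivAt χ (fderiv ℝ χ (S z)) (S z) :=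
      (hχ.differentiable (by norm_num)).differentiableAt.hasFDerivAt
    have h2 : HasFDerivAt (fun z : Fin (n + 1) → V => χ (z ∘ σ)) ((fderiv ℝ χ (S z)).comp S) z :=
      HasFDerivAt.comp z (f := S) h1 S.hasFDerivAt
    rw [h2.fderiv]
    simp only [ContinuousLinearMap.comp_apply]
    congr 1
    funext j
    simp only [hS, Function.comp_apply]
    by_cases hj : j = i
    · subst hj
      simp [hσ]
    · by_cases hj0 : j = 0
      · subst hj0
        have : σ 0 = i := by simp [hσ]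
        rw [this, Pi.single_eq_of_ne (Ne.symm hj), Pi.single_eq_of_ne hj]
      · have : σ j = j := Equiv.swap_apply_of_ne_of_ne hj0 hj
        rw [this, Pi.single_eq_of_ne hj0, Pi.single_eq_of_ne hj]
  have h0 := hweak _ hχS hχSc
  simp_rw [hfd] at h0
  have e1 : ∫ z, fderiv ℝ χ z (Pi.single i v) • Ψ z =
      s * ∫ z, fderiv ℝ χ (z ∘ σ) (Pi.single i v) • Ψ z := by
    rw [← integral_perm σ (fun z => fderiv ℝ χ z (Pi.single i v) • Ψ z), ← integral_const_mul]
    refine integral_congr_ae ?_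
    filter_upwards [anti σ] with z hz
    rw [hz, Complex.real_smul, Complex.real_smul]
    ring
  have e2 : ∫ z, χ z • (s * D (z ∘ σ)) = s * ∫ z, χ (z ∘ σ) • D z := by
    rw [← integral_perm σ (fun z => χ z • (s * D (z ∘ σ))), ← integral_const_mul]
    refine integral_congr_ae (Eventually.of_forall fun z => ?_)
    simp only [hσσ, Complex.real_smul]
    ring
  rw [e1, e2, h0]
  ring

lemma energy_perm (Ψ : (Fin (n + 1) → V) → ℂ) (D0 Di : (Fin (n + 1) → V) → ℂ) (v : V)
    (anti : ∀ σ : Equiv.Perm (Fin (n + 1)),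
      ∀ᵐ x, Ψ (x ∘ σ) = ((Equiv.Perm.sign σ : ℤ) : ℂ) * Ψ x)
    (i : Fin (n + 1)) (hD0 : MemLp D0 2) (hDi : MemLp Di 2)
    (hweak0 : IsWeakDeriv Ψ D0 (Pi.single 0 v)) (hweaki : IsWeakDeriv Ψ Di (Pi.single i v)) :
    ∫ z, ‖Di z‖ ^ 2 = ∫ z, ‖D0 z‖ ^ 2 := by
  have h1 := weak_perm Ψ D0 v anti hweak0 i
  have hm : MemLp (fun z : Fin (n + 1) → V => ((Equiv.Perm.sign (Equiv.swap 0 i) : ℤ) : ℂ) *
      D0 (z ∘ Equiv.swap 0 i)) 2 :=
    (hD0.comp_measurePreserving (mp_perm (V := V) (Equiv.swap 0 i))).const_mul _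
  have h2 := weakDeriv_unique Ψ _ _ _ (hDi.locallyIntegrable (by norm_num))
    (hm.locallyIntegrable (by norm_num)) hweaki h1
  rw [← integral_perm (Equiv.swap 0 i) (fun z => ‖D0 z‖ ^ 2)]
  refine integral_congr_ae ?_
  filter_upwards [h2] with z hz
  rw [hz, norm_mul, sign_norm, one_mul]

end Pool.Agent.Helper2.LL
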