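import Pool.Agent.Helper1.LL.Defs
import Pool.Agent.Helper2.LL.Core4

/-!
# From antisymmetric functions to functions on `V × Y`
-/

open MeasureTheory Filter Topology
open scoped ENNReal ContDiff RealInnerProductSpace

noncomputable section

set_option linter.unusedSectionVars false

namespace Pool.Agent.Helper2.LL

open Pool.Agent.Helper1.LL

variable {V : Type*} [NormedAddCommGroup V] [InnerProductSpace ℝ V] [FiniteDimensional ℝ V]
  [MeasurableSpace V] [BorelSpace V]

/-- The map `(x, X) ↦ (x, X_1, …, X_n)` preserves the measure. -/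
lemma mp_cons (n : ℕ) : MeasurePreserving
    (fun p : V × (Fin n → V) => (Fin.cons p.1 p.2 : Fin (n + 1) → V)) := by
  have h := (volume_preserving_piFinSuccAbove (fun _ : Fin (n + 1) => V) 0).symm
  have e : (fun p : V × (Fin n → V) => (Fin.cons p.1 p.2 : Fin (n + 1) → V)) =
      ⇑(MeasurableEquiv.piFinSuccAbove (fun _ : Fin (n + 1) => V) 0).symm := by
    funext p
    rw [MeasurableEquiv.piFinSuccAbove_symm_apply]
    exact (Fin.insertNth_zero' p.1 p.2).symm
  rw [e]
  exact h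

/-- The measurable equivalence `(x, X) ↦ (x, X_1, …, X_n)`. -/
lemma consEmb (n : ℕ) : MeasurableEmbedding
    (fun p : V × (Fin n → V) => (Fin.cons p.1 p.2 : Fin (n + 1) → V)) := by
  have e : (fun p : V × (Fin n → V) => (Fin.cons p.1 p.2 : Fin (n + 1) → V)) =
      ⇑(MeasurableEquiv.piFinSuccAbove (fun _ : Fin (n + 1) => V) 0).symm := by
    funext p
    rw [MeasurableEquiv.piFinSuccAbove_symm_apply]
    exact (Fin.insertNth_zero' p.1 p.2).symm
  rw [e]
  exact MeasurableEquiv.measurableEmbedding _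

lemma integral_cons {F : Type*} [NormedAddCommGroup F] [NormedSpace ℝ F] (n : ℕ)
    (h : (Fin (n + 1) → V) → F) :
    ∫ z, h z = ∫ p : V × (Fin n → V), h (Fin.cons p.1 p.2) :=
  ((mp_cons n).integral_comp (consEmb n) h).symm

/-- Swapped sections of an a.e. statement. -/
lemma ae_sections {Y : Type*} [MeasureSpace Y] [SFinite (volume : Measure Y)]
    {P : V × Y → Prop} (h : ∀ᵐ p, P p) : ∀ᵐ X : Y, ∀ᵐ x : V, P (x, X) := by
  have h1 : ∀ᵐ q : Y × V, P q.swap :=
    (Measure.measurePreserving_swap (μ := (volume : Measure Y))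
      (ν := (volume : Measure V))).quasiMeasurePreserving.ae h
  exact Measure.ae_ae_of_ae_prod h1

/-- Cauchy-Schwarz. -/
lemma enorm_integral_mul_sq_le (c h : V → ℂ) (hc : AEMeasurable c) (hh : AEMeasurable h) :
    ‖∫ x, c x * h x‖ₑ ^ 2 ≤ (∫⁻ x, ‖c x‖ₑ ^ 2) * ∫⁻ x, ‖h x‖ₑ ^ 2 := by
  have h1 : ‖∫ x, c x * h x‖ₑ ≤ ∫⁻ x, (fun x => ‖c x‖ₑ) x * (fun x => ‖h x‖ₑ) x := by
    refine (enorm_integral_le_lintegral_enorm _).trans (le_of_eq ?_)
    refine lintegral_congr fun x => ?_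
    exact enorm_mul _ _
  have h2 := ENNReal.lintegral_mul_le_Lp_mul_Lq (volume : Measure V) Real.HolderConjugate.two_two
    hc.enorm hh.enorm
  have h3 := h1.trans h2
  have h4 : ‖∫ x, c x * h x‖ₑ ^ 2 ≤ ((∫⁻ x, ‖c x‖ₑ ^ (2 : ℝ)) ^ (1 / 2 : ℝ) *
      (∫⁻ x, ‖h x‖ₑ ^ (2 : ℝ)) ^ (1 / 2 : ℝ)) ^ 2 := by
    gcongr
  refine h4.trans (le_of_eq ?_)
  rw [mul_pow, ← ENNReal.rpow_natCast, ← ENNReal.rpow_natCast, ← ENNReal.rpow_mul,
    ← ENNReal.rpow_mul]
  norm_num

variable {n : ℕ}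

/-- Product test functions. -/
def ptest (η : V → ℝ) (θ : (Fin n → V) → ℝ) (z : Fin (n + 1) → V) : ℝ :=
  η (z 0) * θ (fun j => z j.succ)

lemma ptest_contDiff (η : V → ℝ) (θ : (Fin n → V) → ℝ) (hη : ContDiff ℝ ∞ η)
    (hθ : ContDiff ℝ ∞ θ) : ContDiff ℝ ∞ (ptest η θ) := by
  unfold ptest
  apply ContDiff.mul
  · exact hη.comp (contDiff_apply ℝ V (0 : Fin (n + 1)))
  · apply hθ.comp
    rw [contDiff_pi]
    intro j
    exact contDiff_apply ℝ V (j.succ : Fin (n + 1))

lemma ptest_compact (η : V → ℝ) (θ : (Fin n → V) → ℝ) (hη : HasCompactSupport η)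
    (hθ : HasCompactSupport θ) : HasCompactSupport (ptest η θ) := by
  have hK : IsCompact ((fun p : V × (Fin n → V) => (Fin.cons p.1 p.2 : Fin (n + 1) → V)) ''
      (tsupport η ×ˢ tsupport θ)) := by
    apply IsCompact.image (hη.isCompact.prod hθ.isCompact)
    apply continuous_pi
    intro j
    refine Fin.cases ?_ (fun i => ?_) j
    · simpa using continuous_fst
    · simp only [Fin.cons_succ]
      exact (continuous_apply i).comp continuous_snd
  refine HasCompactSupport.of_support_subset_isCompact hK ?_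
  intro z hz
  rw [Function.mem_support] at hz
  refine ⟨(z 0, fun j => z j.succ), ⟨?_, ?_⟩, ?_⟩
  · exact subset_tsupport _ (left_ne_zero_of_mul hz)
  · exact subset_tsupport _ (right_ne_zero_of_mul hz)
  · exact Fin.cons_self_tail z

lemma ptest_fderiv (η : V → ℝ) (θ : (Fin n → V) → ℝ) (hη : ContDiff ℝ ∞ η)
    (hθ : ContDiff ℝ ∞ θ) (z : Fin (n + 1) → V) (v : V) :
    fderiv ℝ (ptest η θ) z (Pi.single 0 v) = fderiv ℝ η (z 0) v * θ (fun j => z j.succ) := by
  have h1 : HasFDerivAt η (fderiv ℝ η (z 0)) (z 0) :=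
    (hη.differentiable (by norm_num)).differentiableAt.hasFDerivAt
  have h2 : HasFDerivAt θ (fderiv ℝ θ (fun j => z j.succ)) (fun j => z j.succ) :=
    (hθ.differentiable (by norm_num)).differentiableAt.hasFDerivAt
  let p0 : (Fin (n + 1) → V) →L[ℝ] V := ContinuousLinearMap.proj 0
  let tl : (Fin (n + 1) → V) →L[ℝ] (Fin n → V) :=
    ContinuousLinearMap.pi fun j => ContinuousLinearMap.proj j.succ
  have h3 : HasFDerivAt (fun z : Fin (n + 1) → V => η (z 0)) ((fderiv ℝ η (z 0)).comp p0) z :=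
    HasFDerivAt.comp z (f := p0) h1 p0.hasFDerivAt
  have h4 : HasFDerivAt (fun z : Fin (n + 1) → V => θ (fun j => z j.succ))
      ((fderiv ℝ θ (fun j => z j.succ)).comp tl) z :=
    HasFDerivAt.comp z (f := tl) h2 tl.hasFDerivAt
  have h5 := h3.mul h4
  have h6 : fderiv ℝ (ptest η θ) z = _ := h5.fderiv
  rw [h6]
  have h7 : tl (Pi.single 0 v) = 0 := by
    funext j
    simp [tl]
  have h8 : p0 (Pi.single 0 v) = v := by
    simp [p0]
  simp only [add_apply, smul_apply, ContinuousLinearMap.comp_apply, h7, h8, map_zero,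
    smul_eq_mul, mul_zero, zero_add]
  ring

lemma cc_smul_integrable {Z : Type*} [TopologicalSpace Z] [MeasurableSpace Z]
    [OpensMeasurableSpace Z] {μ : Measure Z}
    [IsFiniteMeasureOnCompacts μ] (c : Z → ℝ) (hc : Continuous c) (hcc : HasCompactSupport c)
    (h : Z → ℂ) (h2 : MemLp h 2 μ) : Integrable (fun x => (c x : ℂ) * h x) μ := by
  have hc2 : MemLp (fun x => (c x : ℂ)) 2 μ :=
    (Complex.continuous_ofReal.comp hc).memLp_of_hasCompactSupport
      (hcc.comp_left (g := fun r : ℝ => (r : ℂ)) (by simp))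
  exact memLp_one_iff_integrable.1 (h2.mul' hc2)

end Pool.Agent.Helper2.LL
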