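import Pool.Agent.Helper2.LL.Transfer

/-!
# From antisymmetric functions to functions on `V × Y`, second part
-/

open MeasureTheory Filter Topology
open scoped ENNReal ContDiff RealInnerProductSpace

noncomputable section

set_option linter.unusedSectionVars false

namespace Pool.Agent.Helper2.LL

open Pool.Agent.Helper1.LL

variable {V : Type*} [NormedAddCommGroup V] [InnerProductSpace ℝ V] [FiniteDimensional ℝ V]
  [MeasurableSpace V] [BorelSpace V] {n : ℕ}

/-- The section integral of an `L²` function against a compactly supported function is in `L²`. -/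
lemma section_integral_memLp (c : V → ℂ) (hc : Continuous c) (hcc : HasCompactSupport c)
    (U : V × (Fin n → V) → ℂ) (hU : Measurable U) (hU1 : ∫⁻ p, ‖U p‖ₑ ^ 2 < ⊤) :
    MemLp (fun X : Fin n → V => ∫ x, c x * U (x, X)) 2 := by
  have hm : Measurable (fun X : Fin n → V => ∫ x, c x * U (x, X)) := by
    have h1 : Measurable (fun q : (Fin n → V) × V => c q.2 * U (q.2, q.1)) :=
      (hc.measurable.comp measurable_snd).mul (hU.comp measurable_swap)
    exact (h1.stronglyMeasurable.integral_prod_right' (ν := (volume : Measure V))).measurable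
  rw [memLp_two_iff_lintegral hm.aestronglyMeasurable]
  have hc2 : ∫⁻ x, ‖c x‖ₑ ^ 2 < ⊤ :=
    (memLp_two_iff_lintegral hc.aestronglyMeasurable).1 (hc.memLp_of_hasCompactSupport hcc)
  calc ∫⁻ X : Fin n → V, ‖∫ x, c x * U (x, X)‖ₑ ^ 2
      ≤ ∫⁻ X : Fin n → V, (∫⁻ x, ‖c x‖ₑ ^ 2) * ∫⁻ x : V, ‖U (x, X)‖ₑ ^ 2 := by
        apply lintegral_mono
        intro X
        exact enorm_integral_mul_sq_le c _ hc.measurable.aemeasurable
          (hU.comp (measurable_id.prodMk measurable_const)).aemeasurable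
    _ = (∫⁻ x, ‖c x‖ₑ ^ 2) * ∫⁻ X : Fin n → V, ∫⁻ x : V, ‖U (x, X)‖ₑ ^ 2 :=
        lintegral_const_mul' _ _ hc2.ne
    _ < ⊤ := by
        have := lintegral_prod_symm (μ := (volume : Measure V))
          (ν := (volume : Measure (Fin n → V))) (fun p => ‖U p‖ₑ ^ 2) (by fun_prop)
        rw [← this]
        exact ENNReal.mul_lt_top hc2 hU1

/-- `∫ p, (c p.1 * θ p.2) * U p` as an iterated integral. -/
lemma integral_test (c : V → ℝ) (hc : Continuous c) (hcc : HasCompactSupport c)
    (θ : (Fin n → V) → ℝ) (hθ : Continuous θ) (hθc : HasCompactSupport θ)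
    (U : V × (Fin n → V) → ℂ) (hU : Measurable U) (hU1 : ∫⁻ p, ‖U p‖ₑ ^ 2 < ⊤) :
    ∫ p : V × (Fin n → V), ((c p.1 * θ p.2 : ℝ) : ℂ) * U p =
      ∫ X, θ X • ∫ x, (c x : ℂ) * U (x, X) := by
  have hi : Integrable (fun p : V × (Fin n → V) => ((c p.1 * θ p.2 : ℝ) : ℂ) * U p)
      ((volume : Measure V).prod volume) := by
    apply cc_smul_integrable (fun p : V × (Fin n → V) => c p.1 * θ p.2)
    · fun_prop
    · refine HasCompactSupport.of_support_subset_isCompact
        (hcc.isCompact.prod hθc.isCompact) ?_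
      intro p hp
      rw [Function.mem_support] at hp
      exact ⟨subset_tsupport _ (left_ne_zero_of_mul hp), subset_tsupport _ (right_ne_zero_of_mul hp)⟩
    · exact (memLp_two_iff_lintegral hU.aestronglyMeasurable).2 hU1
  have h1 := integral_prod_symm _ hi
  refine h1.trans ?_
  refine integral_congr_ae (Eventually.of_forall fun X => ?_)
  simp only [Complex.real_smul]
  rw [← integral_const_mul]
  refine integral_congr_ae (Eventually.of_forall fun x => ?_)
  push_cast
  ring

/-- Sectionwise weak derivative, real test functions. -/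
lemma weak_section_real (Ψ D : (Fin (n + 1) → V) → ℂ) (v : V)
    (hweak : IsWeakDeriv Ψ D (Pi.single 0 v))
    (U W : V × (Fin n → V) → ℂ) (hU : Measurable U) (hW : Measurable W)
    (hU1 : ∫⁻ p, ‖U p‖ₑ ^ 2 < ⊤) (hW1 : ∫⁻ p, ‖W p‖ₑ ^ 2 < ⊤)
    (hΨU : (fun p : V × (Fin n → V) => Ψ (Fin.cons p.1 p.2)) =ᵐ[volume] U)
    (hDW : (fun p : V × (Fin n → V) => D (Fin.cons p.1 p.2)) =ᵐ[volume] W)
    (η : V → ℝ) (hη : ContDiff ℝ ∞ η) (hηc : HasCompactSupport η) :
    ∀ᵐ X : Fin n → V, (∫ x, ((fderiv ℝ η x v : ℝ) : ℂ) * U (x, X)) +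
      ∫ x, (η x : ℂ) * W (x, X) = 0 := by
  have hdc := dg_cont η hη v
  have hdcc := dg_compact η hηc v
  have m1 : MemLp (fun X : Fin n → V => ∫ x, ((fderiv ℝ η x v : ℝ) : ℂ) * U (x, X)) 2 :=
    section_integral_memLp (fun x => ((fderiv ℝ η x v : ℝ) : ℂ)) (by fun_prop)
      (hdcc.comp_left (g := fun r : ℝ => (r : ℂ)) (by simp)) U hU hU1
  have m2 : MemLp (fun X : Fin n → V => ∫ x, (η x : ℂ) * W (x, X)) 2 :=
    section_integral_memLp (fun x => (η x : ℂ)) (by have := hη.continuous; fun_prop)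
      (hηc.comp_left (g := fun r : ℝ => (r : ℂ)) (by simp)) W hW hW1
  apply ae_eq_zero_of_integral_contDiff_smul_eq_zero
  · exact (m1.add m2).locallyIntegrable (by norm_num)
  · intro θ hθ hθc
    have h0 := hweak (ptest η θ) (ptest_contDiff η θ hη hθ) (ptest_compact η θ hηc hθc)
    rw [integral_cons, integral_cons] at h0
    have e1 : ∫ p : V × (Fin n → V), fderiv ℝ (ptest η θ) (Fin.cons p.1 p.2) (Pi.single 0 v) •
        Ψ (Fin.cons p.1 p.2) = ∫ X, θ X • ∫ x, ((fderiv ℝ η x v : ℝ) : ℂ) * U (x, X) := by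
      rw [← integral_test (fun x => fderiv ℝ η x v) hdc hdcc θ hθ.continuous hθc U hU hU1]
      refine integral_congr_ae ?_
      filter_upwards [hΨU] with p hp
      rw [hp, ptest_fderiv η θ hη hθ, Complex.real_smul]
      simp
    have e2 : ∫ p : V × (Fin n → V), ptest η θ (Fin.cons p.1 p.2) • D (Fin.cons p.1 p.2) =
        ∫ X, θ X • ∫ x, (η x : ℂ) * W (x, X) := by
      rw [← integral_test η hη.continuous hηc θ hθ.continuous hθc W hW hW1]
      refine integral_congr_ae ?_
      filter_upwards [hDW] with p hp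
      rw [hp, Complex.real_smul]
      simp [ptest]
    rw [e1, e2] at h0
    have i1 : Integrable (fun X => θ X • ∫ x, ((fderiv ℝ η x v : ℝ) : ℂ) * U (x, X)) := by
      simp_rw [Complex.real_smul]
      exact cc_smul_integrable θ hθ.continuous hθc _ m1
    have i2 : Integrable (fun X => θ X • ∫ x, (η x : ℂ) * W (x, X)) := by
      simp_rw [Complex.real_smul]
      exact cc_smul_integrable θ hθ.continuous hθc _ m2
    simp_rw [smul_add]
    rw [integral_add i1 i2, h0]
    simp

lemma re_contDiff (η : V → ℂ) (hη : ContDiff ℝ ∞ η) : ContDiff ℝ ∞ (fun x => (η x).re) :=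
  Complex.reCLM.contDiff.comp hη

lemma im_contDiff (η : V → ℂ) (hη : ContDiff ℝ ∞ η) : ContDiff ℝ ∞ (fun x => (η x).im) :=
  Complex.imCLM.contDiff.comp hη

/-- Sectionwise weak derivative, complex test functions. -/
lemma weak_section (Ψ D : (Fin (n + 1) → V) → ℂ) (v : V)
    (hweak : IsWeakDeriv Ψ D (Pi.single 0 v))
    (U W : V × (Fin n → V) → ℂ) (hU : Measurable U) (hW : Measurable W)
    (hU1 : ∫⁻ p, ‖U p‖ₑ ^ 2 < ⊤) (hW1 : ∫⁻ p, ‖W p‖ₑ ^ 2 < ⊤)
    (hΨU : (fun p : V × (Fin n → V) => Ψ (Fin.cons p.1 p.2)) =ᵐ[volume] U)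
    (hDW : (fun p : V × (Fin n → V) => D (Fin.cons p.1 p.2)) =ᵐ[volume] W)
    (η : V → ℂ) (hη : ContDiff ℝ ∞ η) (hηc : HasCompactSupport η) :
    ∀ᵐ X : Fin n → V, ∫ x, fderiv ℝ η x v * U (x, X) = - ∫ x, η x * W (x, X) := by
  have hr := re_contDiff η hη
  have hi := im_contDiff η hη
  have hrc : HasCompactSupport (fun x => (η x).re) :=
    hηc.comp_left (g := fun z : ℂ => z.re) (by simp)
  have hic : HasCompactSupport (fun x => (η x).im) :=
    hηc.comp_left (g := fun z : ℂ => z.im) (by simp)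
  have hd : ∀ x, fderiv ℝ η x v = ((fderiv ℝ (fun x => (η x).re) x v : ℝ) : ℂ) +
      Complex.I * ((fderiv ℝ (fun x => (η x).im) x v : ℝ) : ℂ) := by
    intro x
    have h0 : HasFDerivAt η (fderiv ℝ η x) x :=
      (hη.differentiable (by norm_num)).differentiableAt.hasFDerivAt
    have h1 : HasFDerivAt (fun x => (η x).re) (Complex.reCLM.comp (fderiv ℝ η x)) x :=
      Complex.reCLM.hasFDerivAt.comp x h0
    have h2 : HasFDerivAt (fun x => (η x).im) (Complex.imCLM.comp (fderiv ℝ η x)) x :=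
      Complex.imCLM.hasFDerivAt.comp x h0
    rw [h1.fderiv, h2.fderiv]
    simp only [ContinuousLinearMap.comp_apply, Complex.reCLM_apply, Complex.imCLM_apply]
    rw [mul_comm]
    exact (Complex.re_add_im _).symm
  have hcr := dg_cont _ hr v
  have hcrc := dg_compact _ hrc v
  have hci := dg_cont _ hi v
  have hcic := dg_compact _ hic v
  filter_upwards [weak_section_real Ψ D v hweak U W hU hW hU1 hW1 hΨU hDW _ hr hrc,
    weak_section_real Ψ D v hweak U W hU hW hU1 hW1 hΨU hDW _ hi hic,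
    section_memLp U hU hU1, section_memLp W hW hW1] with X h1 h2 hUX hWX
  have j1 := cc_smul_integrable _ hcr hcrc _ hUX
  have j2 := cc_smul_integrable _ hci hcic _ hUX
  have j3 := cc_smul_integrable _ hr.continuous hrc _ hWX
  have j4 := cc_smul_integrable _ hi.continuous hic _ hWX
  have e1 : ∫ x, fderiv ℝ η x v * U (x, X) =
      (∫ x, ((fderiv ℝ (fun x => (η x).re) x v : ℝ) : ℂ) * U (x, X)) +
      Complex.I * ∫ x, ((fderiv ℝ (fun x => (η x).im) x v : ℝ) : ℂ) * U (x, X) := by
    rw [← integral_const_mul, ← integral_add j1 (j2.const_mul _)]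
    refine integral_congr_ae (Eventually.of_forall fun x => ?_)
    simp only [hd]
    ring
  have e2 : ∫ x, η x * W (x, X) = (∫ x, ((η x).re : ℂ) * W (x, X)) +
      Complex.I * ∫ x, ((η x).im : ℂ) * W (x, X) := by
    rw [← integral_const_mul, ← integral_add j3 (j4.const_mul _)]
    refine integral_congr_ae (Eventually.of_forall fun x => ?_)
    have := Complex.re_add_im (η x)
    simp only
    calc η x * W (x, X) = (((η x).re : ℂ) + ((η x).im : ℂ) * Complex.I) * W (x, X) := by rw [this]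
      _ = _ := by ring
  rw [e1, e2]
  linear_combination h1 + Complex.I * h2

end Pool.Agent.Helper2.LL
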